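import Pool.Agent.Run7.h538.TP.Stm

/-! LST (helper183): the last row. -/

set_option autoImplicit false

open Finset Matrix

namespace Run7.h183.TP

open Run7.h538.TP

theorem cols {k : ℕ} {f : Fin k → Fin k → ℝ}
    (h : ∀ i i', ∑ j, f i j * f i' j = if i = i' then 1 else 0) (l j : Fin k) :
    ∑ i, f i l * f i j = if l = j then 1 else 0 := by
  have h1 : (Matrix.of f) * (Matrix.of f)ᵀ = 1 := by
    ext i i'
    rw [Matrix.mul_apply, Matrix.one_apply]
    exact h i i'
  have h2 := mul_eq_one_comm.1 h1
  have h3 := congrFun (congrFun h2 l) j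
  rw [Matrix.mul_apply, Matrix.one_apply] at h3
  exact h3

theorem expand {k : ℕ} {f : Fin k → Fin k → ℝ}
    (h : ∀ i i', ∑ j, f i j * f i' j = if i = i' then 1 else 0) (u : Fin k → ℝ) (j : Fin k) :
    u j = ∑ i, (∑ l, f i l * u l) * f i j := by
  have e1 : u j = ∑ l, u l * (∑ i, f i l * f i j) := by
    simp only [cols h]
    simp
  rw [e1]
  simp only [Finset.mul_sum, Finset.sum_mul]
  rw [Finset.sum_comm]
  exact Finset.sum_congr rfl fun i _ => Finset.sum_congr rfl fun l _ => by ring

theorem t_LST (hL : S_LAG) : S_LST := by
  classical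
  intro k D x f hD hx hf i hi
  have hprod : ∀ j : Fin k, (∏ i ∈ univ.erase j, (D j - D i)) ≠ 0 := fun j =>
    Finset.prod_ne_zero_iff.2 fun i hi => sub_ne_zero.2 fun h => (Finset.mem_erase.1 hi).1 (hD h).symm
  have hz : ∀ j, zz D x j ≠ 0 := fun j => one_div_ne_zero (mul_ne_zero (hprod j) (hx j))
  have hlag : ∀ s : ℕ, s + 1 < k → ∑ j, zz D x j * D j ^ s * x j = 0 := by
    intro s hs
    rw [← hL k s D hD hs]
    refine Finset.sum_congr rfl fun j _ => ?_
    have h1 := hprod j
    have h2 := hx j
    unfold zz
    field_simp
  have key : ∀ n : ℕ, ∀ (hn : n < k) (s : ℕ), n + s + 1 < k →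
      ∑ j, zz D x j * D j ^ s * f ⟨n, hn⟩ j = 0 := by
    intro n
    induction n using Nat.strong_induction_on with
    | _ n ih =>
      intro hn s hs
      rcases n with _ | n
      · obtain ⟨a, ha, hxa⟩ := hf.fst ⟨0, hn⟩ rfl
        have h1 := hlag s (by omega)
        have h2 : a * ∑ j, zz D x j * D j ^ s * f ⟨0, hn⟩ j = 0 := by
          rw [← h1, Finset.mul_sum]
          exact Finset.sum_congr rfl fun j _ => by rw [hxa j]; ring
        exact (mul_eq_zero.1 h2).resolve_left ha
      · have hn' : n < k := by omega
        have h1 := ih n (by omega) hn' (s + 1) (by omega)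
        have h2 : ∑ j, zz D x j * D j ^ (s + 1) * f ⟨n, hn'⟩ j =
            ∑ i', (∑ l, f i' l * (f ⟨n, hn'⟩ l * D l)) * ∑ j, zz D x j * D j ^ s * f i' j := by
          have e1 : ∀ j, zz D x j * D j ^ (s + 1) * f ⟨n, hn'⟩ j =
              zz D x j * D j ^ s * (f ⟨n, hn'⟩ j * D j) := fun j => by ring
          simp only [e1]
          have e2 : ∀ j, f ⟨n, hn'⟩ j * D j =
              ∑ i', (∑ l, f i' l * (f ⟨n, hn'⟩ l * D l)) * f i' j := fun j =>
            expand hf.orth (fun l => f ⟨n, hn'⟩ l * D l) j
          conv_lhs => 
            enter [2, j]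
            rw [e2 j]
          simp only [Finset.mul_sum]
          rw [Finset.sum_comm]
          refine Finset.sum_congr rfl fun i' _ => Finset.sum_congr rfl fun j _ => ?_
          ring
        rw [h1, Finset.sum_eq_single (⟨n + 1, hn⟩ : Fin k)] at h2
        · have h3 : (∑ l, f ⟨n + 1, hn⟩ l * (f ⟨n, hn'⟩ l * D l)) ≠ 0 := by
            have h4 := (hf.tri ⟨n, hn'⟩ ⟨n + 1, hn⟩ (by
              intro h
              have := congrArg Fin.val h
              simp at this)).2 (Or.inl rfl)
            intro h5
            apply h4
            rw [← h5]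
            exact Finset.sum_congr rfl fun l _ => by ring
          exact (mul_eq_zero.1 h2.symm).resolve_left h3
        · intro i' _ hne
          by_cases hi' : i'.val ≤ n
          · rw [ih i'.val (by omega) i'.isLt s (by omega), mul_zero]
          · have hi2 : i'.val ≠ n + 1 := fun h => hne (Fin.ext h)
            have h4 : ∑ l, f i' l * (f ⟨n, hn'⟩ l * D l) = 0 := by
              have h5 := (hf.tri ⟨n, hn'⟩ i' (by
                intro h
                have := congrArg Fin.val h
                simp at this
                omega))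
              by_contra h6
              have h7 : ∑ l, f ⟨n, hn'⟩ l * D l * f i' l ≠ 0 := by
                intro h8
                apply h6
                rw [← h8]
                exact Finset.sum_congr rfl fun l _ => by ring
              have h9 := h5.1 h7
              simp only at h9
              omega
            rw [h4, zero_mul]
        · intro h
          exact absurd (Finset.mem_univ _) h
  have hexp : ∀ j, zz D x j = (∑ l, f i l * zz D x l) * f i j := by
    intro j
    have h1 := expand hf.orth (zz D x) j
    rw [Finset.sum_eq_single i] at h1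
    · exact h1
    · intro i' _ hne
      have h2 : i'.val + 0 + 1 < k := by
        have h3 : i'.val ≠ i.val := fun h => hne (Fin.ext h)
        have := i'.isLt
        omega
      have h4 := key i'.val i'.isLt 0 h2
      have h5 : ∑ l, f i' l * zz D x l = 0 := by
        rw [← h4]
        exact Finset.sum_congr rfl fun l _ => by rw [pow_zero]; ring
      rw [h5, zero_mul]
    · intro h
      exact absurd (Finset.mem_univ _) h
  refine ⟨∑ l, f i l * zz D x l, fun h => hz i ?_, hexp⟩
  rw [hexp i, h, zero_mul]

end Run7.h183.TP
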