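import Pool.Agent.Run7.h538.TP.Stm

/-! KER (helper183): the double eigenvalues. -/

set_option autoImplicit false

open Finset Matrix

namespace Run7.h183.TP.KER

open Run7.h538.TP

theorem cols {k : ℕ} {f : Fin k → Fin k → ℝ}
    (h : ∀ i i', ∑ j, f i j * f i' j = if i = i' then 1 else 0) (l j : Fin k) :
    ∑ i, f i l * f i j = if l = j then 1 else 0 := by
  have h1 : (Matrix.of f) * (Matrix.of f)ᵀ = 1 := by
    ext i i'
    rw [Matrix.mul_apply, Matrix.one_apply]
    exact h i i'
  have h2 := mul_eq_one_comm.1 h1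
  have h3 := congrFun (congrFun h2 l) j
  rw [Matrix.mul_apply, Matrix.one_apply] at h3
  exact h3

/-- Parseval -/
theorem pars {k : ℕ} {f : Fin k → Fin k → ℝ}
    (h : ∀ i i', ∑ j, f i j * f i' j = if i = i' then 1 else 0) (a b : Fin k → ℝ) :
    ∑ i, (∑ l, a l * f i l) * (∑ l, f i l * b l) = ∑ l, a l * b l := by
  have e1 : ∀ i, (∑ l, a l * f i l) * (∑ l, f i l * b l) =
      ∑ l, ∑ l', a l * b l' * (f i l * f i l') := by
    intro i
    rw [Finset.sum_mul_sum]
    exact Finset.sum_congr rfl fun l _ => Finset.sum_congr rfl fun l' _ => by ring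
  simp only [e1]
  rw [Finset.sum_comm]
  refine Finset.sum_congr rfl fun l _ => ?_
  rw [Finset.sum_comm]
  simp only [← Finset.mul_sum, cols h]
  simp

theorem t_KER : S_KER := by
  classical
  intro K n a0 D r f ν s g q hf hg hD hν hr heq
  have hDq : ∀ l, l ≠ q → D q - D l ≠ 0 := fun l hl => sub_ne_zero.2 fun h => hl (hD h).symm
  have hνq : ∀ l, D q - ν l ≠ 0 := fun l => sub_ne_zero.2 fun h => hν l h.symm
  obtain ⟨hh, hhd⟩ : ∃ hh : Fin K → ℝ, ∀ l, hh l = if l = q then 0 else r l / (D q - D l) :=
    ⟨_, fun _ => rfl⟩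
  obtain ⟨tt, htd⟩ : ∃ tt : Fin n → ℝ, ∀ l, tt l = s l / (D q - ν l) := ⟨_, fun _ => rfl⟩
  have hh1 : ∀ l, r l + D l * hh l = D q * hh l := by
    intro l
    rw [hhd]
    split_ifs with hl
    · rw [hl, hr]; ring
    · have := hDq l hl
      field_simp
      ring
  have tt1 : ∀ l, s l + ν l * tt l = D q * tt l := by
    intro l
    rw [htd]
    have := hνq l
    field_simp
    ring
  let u : Fin (K + 1) ⊕ Fin n → ℝ := Sum.elim (Fin.cons 0 fun i => f i q) (fun _ => 0)
  let v : Fin (K + 1) ⊕ Fin n → ℝ := Sum.elim (Fin.cons 1 fun i => ∑ l, f i l * hh l)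
    (fun k => ∑ l, g k l * tt l)
  have dq : ∀ i, f i q = ∑ l, f i l * (if l = q then 1 else 0) := fun i => by simp
  refine ⟨⟨u, v, ?_, ?_, ?_⟩, ?_⟩
  · rw [LinearIndependent.pair_iff]
    intro α β hαβ
    have h0 := congrFun hαβ (.inl 0)
    simp [u, v] at h0
    subst h0
    refine ⟨?_, rfl⟩
    by_contra hα
    have h1 : ∀ i, f i q = 0 := by
      intro i
      have h2 := congrFun hαβ (.inl (Fin.succ i))
      simp [u, v, hα] at h2
      exact h2
    have h3 := cols hf q q
    simp [h1] at h3
  · funext x
    rcases x with x | k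
    · refine Fin.cases ?_ (fun i' => ?_) x
      · simp only [Matrix.mulVec, dotProduct, Fintype.sum_sum_type, Fin.sum_univ_succ, Bm, u,
          Matrix.fromBlocks_apply₁₁, Matrix.fromBlocks_apply₁₂, Matrix.of_apply, Sum.elim_inl,
          Sum.elim_inr, Fin.cons_zero, Fin.cons_succ, Fin.cases_zero, Fin.cases_succ, mul_zero,
          Finset.sum_const_zero, add_zero, zero_add, Pi.smul_apply, smul_eq_mul]
        have e1 : ∀ i, (∑ l, r l * f i l) * f i q =
            (∑ l, r l * f i l) * (∑ l, f i l * (if l = q then 1 else 0)) := fun i => by rw [← dq]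
        simp only [e1, pars hf]
        simp [hr]
      · simp only [Matrix.mulVec, dotProduct, Fintype.sum_sum_type, Fin.sum_univ_succ, Bm, u,
          Matrix.fromBlocks_apply₁₁, Matrix.fromBlocks_apply₁₂, Matrix.of_apply, Sum.elim_inl,
          Sum.elim_inr, Fin.cons_zero, Fin.cons_succ, Fin.cases_zero, Fin.cases_succ, mul_zero,
          Finset.sum_const_zero, add_zero, zero_add, Pi.smul_apply, smul_eq_mul]
        have e1 : ∀ i, (∑ l, f i' l * D l * f i l) * f i q =
            (∑ l, f i' l * D l * f i l) * (∑ l, f i l * (if l = q then 1 else 0)) :=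
          fun i => by rw [← dq]
        simp only [e1, pars hf (fun l => f i' l * D l)]
        simp [mul_comm]
    · simp only [Matrix.mulVec, dotProduct, Fintype.sum_sum_type, Fin.sum_univ_succ, Bm, u,
        Matrix.fromBlocks_apply₂₁, Matrix.fromBlocks_apply₂₂, Matrix.of_apply, Sum.elim_inl,
        Sum.elim_inr, Fin.cons_zero, Fin.cons_succ, Fin.cases_zero, Fin.cases_succ, mul_zero,
        zero_mul, Finset.sum_const_zero, add_zero, Pi.smul_apply, smul_eq_mul]
  · funext x
    rcases x with x | k
    · refine Fin.cases ?_ (fun i' => ?_) x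
      · simp only [Matrix.mulVec, dotProduct, Fintype.sum_sum_type, Fin.sum_univ_succ, Bm, v,
          Matrix.fromBlocks_apply₁₁, Matrix.fromBlocks_apply₁₂, Matrix.of_apply, Sum.elim_inl,
          Sum.elim_inr, Fin.cons_zero, Fin.cons_succ, Fin.cases_zero, Fin.cases_succ, mul_one,
          Pi.smul_apply, smul_eq_mul, pars hf, pars hg]
        rw [← heq]
        congr 1
        · congr 1
          rw [← Finset.add_sum_erase _ _ (Finset.mem_univ q), hhd, if_pos rfl, mul_zero, zero_add]
          refine Finset.sum_congr rfl fun l hl => ?_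
          rw [hhd, if_neg (Finset.mem_erase.1 hl).1]
          ring
        · refine Finset.sum_congr rfl fun l _ => ?_
          rw [htd]
          ring
      · simp only [Matrix.mulVec, dotProduct, Fintype.sum_sum_type, Fin.sum_univ_succ, Bm, v,
          Matrix.fromBlocks_apply₁₁, Matrix.fromBlocks_apply₁₂, Matrix.of_apply, Sum.elim_inl,
          Sum.elim_inr, Fin.cons_zero, Fin.cons_succ, Fin.cases_zero, Fin.cases_succ, mul_one,
          zero_mul, Finset.sum_const_zero, add_zero,
          Pi.smul_apply, smul_eq_mul, pars hf (fun l => f i' l * D l)]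
        rw [← Finset.sum_add_distrib, Finset.mul_sum]
        refine Finset.sum_congr rfl fun l _ => ?_
        linear_combination f i' l * hh1 l
    · simp only [Matrix.mulVec, dotProduct, Fintype.sum_sum_type, Fin.sum_univ_succ, Bm, v,
        Matrix.fromBlocks_apply₂₁, Matrix.fromBlocks_apply₂₂, Matrix.of_apply, Sum.elim_inl,
        Sum.elim_inr, Fin.cons_zero, Fin.cons_succ, Fin.cases_zero, Fin.cases_succ, mul_one,
        zero_mul, Finset.sum_const_zero, add_zero,
        Pi.smul_apply, smul_eq_mul, pars hg (fun l => g k l * ν l)]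
      rw [← Finset.sum_add_distrib, Finset.mul_sum]
      refine Finset.sum_congr rfl fun l _ => ?_
      linear_combination g k l * tt1 l
  · intro w hw
    have hcg := cols hg
    have h1 : ∀ k, ∑ k', (∑ l, g k l * ν l * g k' l) * w k' = D q * w k := by
      intro k
      have := congrFun hw k
      simp only [Matrix.mulVec, dotProduct, Bm, Matrix.toBlocks_fromBlocks₂₂, Matrix.of_apply,
        Pi.smul_apply, smul_eq_mul] at this
      exact this
    have h2 : ∀ k, ∑ l, g k l * (ν l * ∑ k', g k' l * w k') = D q * w k := by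
      intro k
      rw [← h1 k]
      simp only [Finset.mul_sum, Finset.sum_mul]
      rw [Finset.sum_comm]
      exact Finset.sum_congr rfl fun k' _ => Finset.sum_congr rfl fun l _ => by ring
    have h3 : ∀ l, ∑ k', g k' l * w k' = 0 := by
      intro l
      have h4 : ∑ k, g k l * (∑ l', g k l' * (ν l' * ∑ k', g k' l' * w k')) =
          ν l * ∑ k', g k' l * w k' := by
        have e1 : ∀ k, g k l = ∑ l', (if l' = l then 1 else 0) * g k l' := fun k => by simp
        have e2 := pars hg (fun l' => if l' = l then 1 else 0)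
          (fun l' => ν l' * ∑ k', g k' l' * w k')
        simp only [← e1] at e2
        rw [e2]
        simp
      simp only [h2] at h4
      have h5 : D q * ∑ k', g k' l * w k' = ν l * ∑ k', g k' l * w k' := by
        rw [← h4, Finset.mul_sum]
        exact Finset.sum_congr rfl fun k _ => by ring
      have h6 : (D q - ν l) * ∑ k', g k' l * w k' = 0 := by linear_combination h5
      exact (mul_eq_zero.1 h6).resolve_left (hνq l)
    funext k
    have h7 : ∑ l, g k l * ∑ k', g k' l * w k' = w k := by
      have h8 : ∀ k', ∑ l, g k l * g k' l = if k = k' then 1 else 0 := fun k' => hg k k'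
      simp only [Finset.mul_sum]
      rw [Finset.sum_comm]
      have e3 : ∀ k', ∑ l, g k l * (g k' l * w k') = (if k = k' then 1 else 0) * w k' := by
        intro k'
        rw [← h8, Finset.sum_mul]
        exact Finset.sum_congr rfl fun l _ => by ring
      simp only [e3]
      simp
    rw [← h7]
    simp [h3]

end Run7.h183.TP.KER
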